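import Mathlib
import Pool.Agent.S7e.Pnt
import Pool.Agent.MP_364e44_co.SProps
import Pool.Agent.MP_364e44_co.AllN

/-!
A lower bound for the lower limit of `tau n 4 / √n`, all `n`: if `p` is an odd prime and
`6 (p ^ 2 - 1) < n` then `p - 1 ≤ tau n 4`; hence `1 / √6 ≤ liminf tau n 4 / √n`.
-/

open Finset Filter Topology

namespace Pool.Agent.Results.MP_364e44_co.LiminfT4

open Pool.Agent.MP_364e44_co

lemma tau_sq_le_self (n : ℕ) (hn : 0 < n) : (tau n 4 : ℝ) ^ 2 ≤ n := by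
  have hne : NeZero n := ⟨hn.ne'⟩
  obtain ⟨A, hA, hcard⟩ := exists_tau n 4
  have h := card_sq_le (S := symm A) (fun x hx => neg_mem_symm hx)
    (fun x hx => cv_le_two hA (by norm_num) x hx)
  rw [card_symm hA (by norm_num), hcard] at h
  push_cast at h
  have h2 : (tau n 4 : ℝ) ≤ (tau n 4 : ℝ) ^ 2 := by
    have : tau n 4 ≤ (tau n 4) ^ 2 := Nat.le_self_pow (by norm_num) _
    exact_mod_cast this
  nlinarith

lemma ratio_le_one (n : ℕ) : (tau n 4 : ℝ) / √n ≤ 1 := by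
  rcases Nat.eq_zero_or_pos n with h | h
  · simp [h]
  · have h0 : (0 : ℝ) < n := by exact_mod_cast h
    rw [div_le_one (Real.sqrt_pos.mpr h0)]
    exact Real.le_sqrt_of_sq_le (tau_sq_le_self n h)

/-- for every `η > 0` and every large `x` there is a prime in `(x, (1 + η) x]` -/
lemma exists_prime (η : ℝ) (hη : 0 < η) :
    ∀ᶠ x : ℝ in atTop, ∃ p : ℕ, p.Prime ∧ x < p ∧ (p : ℝ) ≤ (1 + η) * x := by
  have h := Pool.Agent.S7e.count_short 1 1 isUnit_one η hη
  have hpos : 0 < η / ((1 : ℕ).totient : ℝ) := by simpa using hη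
  filter_upwards [h.eventually (lt_mem_nhds hpos), eventually_gt_atTop (0 : ℝ)] with x hx hx0
  have hcard : ((Pool.Agent.S7e.primesIn x ((1 + η) * x)).filter
      (fun p : ℕ => (p : ZMod 1) = 1)).card ≠ 0 := by
    intro h0
    rw [h0] at hx
    simp at hx
  obtain ⟨p, hp⟩ := Finset.card_ne_zero.mp hcard
  rw [mem_filter, Pool.Agent.S7e.mem_primesIn hx0.le (by positivity)] at hp
  exact ⟨p, hp.1.2.2, hp.1.1, hp.1.2.1⟩

lemma eventually_ge (b : ℝ) (hb : b < 1 / √6) : ∀ᶠ n : ℕ in atTop, b ≤ (tau n 4 : ℝ) / √n := by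
  have h6 : 0 < √(6 : ℝ) := Real.sqrt_pos.mpr (by norm_num)
  -- the margin
  have hlim : Tendsto (fun η : ℝ => 1 / √6 / (1 + η)) (𝓝[>] 0) (𝓝 (1 / √6 / (1 + 0))) := by
    apply Tendsto.div tendsto_const_nhds
    · exact (tendsto_const_nhds.add tendsto_id).mono_left nhdsWithin_le_nhds
    · norm_num
  rw [add_zero, div_one] at hlim
  obtain ⟨η, hη1, hη⟩ := ((hlim.eventually (lt_mem_nhds hb)).and self_mem_nhdsWithin).exists
  have hη : 0 < η := hη
  obtain ⟨δ, hδ⟩ : ∃ δ : ℝ, δ = 1 / √6 / (1 + η) - b := ⟨_, rfl⟩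
  have hδ0 : 0 < δ := by rw [hδ]; linarith
  have hη' : 0 < 1 + η := by linarith
  have hx : Tendsto (fun n : ℕ => √(n : ℝ) / (√6 * (1 + η))) atTop atTop :=
    Tendsto.atTop_div_const (by positivity)
      (Real.tendsto_sqrt_atTop.comp tendsto_natCast_atTop_atTop)
  have hs : Tendsto (fun n : ℕ => √(n : ℝ)) atTop atTop :=
    Real.tendsto_sqrt_atTop.comp tendsto_natCast_atTop_atTop
  filter_upwards [hx.eventually (exists_prime η hη), hx.eventually (eventually_gt_atTop (2 : ℝ)),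
    hs.eventually (eventually_ge_atTop (1 / δ)), eventually_gt_atTop 0] with n hn hn2 hn3 hn0
  obtain ⟨p, hpp, hp1, hp2⟩ := hn
  have hsn : 0 < √(n : ℝ) := Real.sqrt_pos.mpr (by exact_mod_cast hn0)
  have hp2' : 2 < p := by
    have : (2 : ℝ) < p := hn2.trans hp1
    exact_mod_cast this
  have hodd : Odd p := by
    rcases hpp.eq_two_or_odd' with h | h
    · omega
    · exact h
  have hp3 : (p : ℝ) ≤ √n / √6 := by
    refine hp2.trans (le_of_eq ?_)
    field_simp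
  have hp4 : 6 * p ^ 2 ≤ n := by
    have h1 : (p : ℝ) ^ 2 ≤ (√n / √6) ^ 2 := by gcongr
    rw [div_pow, Real.sq_sqrt (Nat.cast_nonneg n), Real.sq_sqrt (by norm_num)] at h1
    have h2 : (6 : ℝ) * (p : ℝ) ^ 2 ≤ n := by linarith
    exact_mod_cast h2
  have hp5 : 6 * (p ^ 2 - 1) < n := by
    have : 1 ≤ p ^ 2 := Nat.one_le_pow _ _ (by omega)
    omega
  have h1 := tau_four_ge_all n p hpp hodd hp5
  have h2 : (p : ℝ) - 1 ≤ tau n 4 := by
    have h3 : ((p - 1 : ℕ) : ℝ) ≤ tau n 4 := by exact_mod_cast h1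
    rwa [Nat.cast_sub (by omega), Nat.cast_one] at h3
  rw [le_div_iff₀ hsn]
  have h4 : √(n : ℝ) / (√6 * (1 + η)) = (b + δ) * √n := by
    rw [hδ]
    field_simp
    ring
  have h5 : 1 ≤ δ * √n := by
    rw [div_le_iff₀ hδ0] at hn3
    linarith
  rw [h4] at hp1
  linarith

/-- **Theorem.** If `p` is an odd prime and `6 (p ^ 2 - 1) < n` then `τ_±(ℤ_n,[1,4]) ≥ p - 1`;
hence `liminf τ_±(ℤ_n,[1,4]) / √n ≥ 1/√6`. -/
theorem result :
    (∀ n p : ℕ, p.Prime → Odd p → 6 * (p ^ 2 - 1) < n → p - 1 ≤ tau n 4) ∧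
    1 / √6 ≤ liminf (fun n : ℕ => (tau n 4 : ℝ) / √n) atTop := by
  refine ⟨fun n p hpp hp hn => tau_four_ge_all n p hpp hp hn, ?_⟩
  apply le_of_forall_lt_imp_le_of_dense
  intro b hb
  refine Filter.le_liminf_of_le ?_ (eventually_ge b hb)
  exact Filter.IsBoundedUnder.isCoboundedUnder_ge
    (Filter.isBoundedUnder_of ⟨1, fun n => ratio_le_one n⟩)

end Pool.Agent.Results.MP_364e44_co.LiminfT4
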