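import Mathlib
import Pool.Agent.MP_364e44_co.SProps
import Pool.Agent.MP_364e44_co.Lower

/-!
A lower bound for the upper limit of `tau n 4 / √n`: for `n = 3 (9 ^ k - 1)` there is a
`4`-independent set of `3 ^ k - 1` elements.
-/

open Finset Filter Topology

namespace Pool.Agent.Results.MP_364e44_co.LimsupT4

open Pool.Agent.MP_364e44_co

lemma tau_sq_le_self (n : ℕ) (hn : 0 < n) : (tau n 4 : ℝ) ^ 2 ≤ n := by
  have hne : NeZero n := ⟨hn.ne'⟩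
  obtain ⟨A, hA, hcard⟩ := exists_tau n 4
  have h := card_sq_le (S := symm A) (fun x hx => neg_mem_symm hx)
    (fun x hx => cv_le_two hA (by norm_num) x hx)
  rw [card_symm hA (by norm_num), hcard] at h
  push_cast at h
  have h2 : (tau n 4 : ℝ) ≤ (tau n 4 : ℝ) ^ 2 := by
    have : tau n 4 ≤ (tau n 4) ^ 2 := Nat.le_self_pow (by norm_num) _
    exact_mod_cast this
  nlinarith

lemma ratio_le_one (n : ℕ) : (tau n 4 : ℝ) / √n ≤ 1 := by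
  rcases Nat.eq_zero_or_pos n with h | h
  · simp [h]
  · have h0 : (0 : ℝ) < n := by exact_mod_cast h
    rw [div_le_one (Real.sqrt_pos.mpr h0)]
    exact Real.le_sqrt_of_sq_le (tau_sq_le_self n h)

lemma ratio_ge (k : ℕ) (hk : 0 < k) :
    (1 - 1 / 3 ^ k) / √3 ≤ (tau (3 * ((3 ^ k) ^ 2 - 1)) 4 : ℝ) / √((3 * ((3 ^ k) ^ 2 - 1) : ℕ) : ℝ) := by
  have h1 := tau_four_ge k hk
  have h1' : ((3 : ℝ) ^ k) - 1 ≤ (tau (3 * ((3 ^ k) ^ 2 - 1)) 4 : ℝ) := by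
    have h3 : 1 ≤ 3 ^ k := Nat.one_le_iff_ne_zero.mpr (by positivity)
    have : ((3 ^ k - 1 : ℕ) : ℝ) ≤ (tau (3 * ((3 ^ k) ^ 2 - 1)) 4 : ℝ) := by exact_mod_cast h1
    rwa [Nat.cast_sub h3, Nat.cast_pow, Nat.cast_ofNat, Nat.cast_one] at this
  have h2 : (((3 * ((3 ^ k) ^ 2 - 1) : ℕ)) : ℝ) ≤ 3 * ((3 : ℝ) ^ k) ^ 2 := by
    have : 3 * ((3 ^ k) ^ 2 - 1) ≤ 3 * (3 ^ k) ^ 2 := by omega
    exact_mod_cast this
  have hpos : (0 : ℝ) < (((3 * ((3 ^ k) ^ 2 - 1) : ℕ)) : ℝ) := by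
    have hne := neZero_aux k hk
    have : 0 < 3 * ((3 ^ k) ^ 2 - 1) := Nat.pos_of_ne_zero (Nat.mul_ne_zero (by norm_num) hne.out)
    exact_mod_cast this
  have hq : (0 : ℝ) < 3 ^ k := by positivity
  have hq1 : (1 : ℝ) ≤ 3 ^ k := one_le_pow₀ (by norm_num)
  rw [div_le_div_iff₀ (by positivity) (Real.sqrt_pos.mpr hpos)]
  have h4 : √((3 * ((3 ^ k) ^ 2 - 1) : ℕ) : ℝ) ≤ √3 * 3 ^ k := by
    calc √((3 * ((3 ^ k) ^ 2 - 1) : ℕ) : ℝ) ≤ √(3 * ((3 : ℝ) ^ k) ^ 2) := Real.sqrt_le_sqrt h2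
      _ = √3 * 3 ^ k := by rw [Real.sqrt_mul (by norm_num), Real.sqrt_sq (by positivity)]
  have h5 : (0 : ℝ) ≤ 1 - 1 / 3 ^ k := by
    rw [sub_nonneg, div_le_one hq]; exact hq1
  calc (1 - 1 / 3 ^ k) * √((3 * ((3 ^ k) ^ 2 - 1) : ℕ) : ℝ)
      ≤ (1 - 1 / 3 ^ k) * (√3 * 3 ^ k) := mul_le_mul_of_nonneg_left h4 h5
    _ = (3 ^ k - 1) * √3 := by field_simp
    _ ≤ _ := mul_le_mul_of_nonneg_right h1' (Real.sqrt_nonneg _)

/-- **Theorem.** For every `k ≥ 1` and `n = 3 (9 ^ k - 1)` one has `τ_±(ℤ_n,[1,4]) ≥ 3 ^ k - 1`;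
hence `limsup τ_±(ℤ_n,[1,4]) / √n ≥ 1/√3`. -/
theorem result :
    (∀ k : ℕ, 1 ≤ k → 3 ^ k - 1 ≤ tau (3 * (9 ^ k - 1)) 4) ∧
    1 / √3 ≤ limsup (fun n : ℕ => (tau n 4 : ℝ) / √n) atTop := by
  constructor
  · intro k hk
    have h := tau_four_ge k hk
    have h9 : (9 : ℕ) ^ k = (3 ^ k) ^ 2 := by
      rw [← pow_mul, mul_comm, pow_mul]; norm_num
    rw [h9]; exact h
  · apply le_of_forall_lt_imp_le_of_dense
    intro b hb
    refine Filter.le_limsup_of_frequently_le ?_ (Filter.isBoundedUnder_of ⟨1, fun n => ratio_le_one n⟩)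
    rw [Filter.frequently_atTop]
    intro N
    -- choose k large
    have hlim : Tendsto (fun k : ℕ => (1 - (1 / 3 : ℝ) ^ k) / √3) atTop (𝓝 ((1 - 0) / √3)) := by
      apply Tendsto.div_const
      apply Tendsto.const_sub
      exact tendsto_pow_atTop_nhds_zero_of_lt_one (by norm_num) (by norm_num)
    rw [sub_zero] at hlim
    obtain ⟨k, hk1, hk2⟩ := ((hlim.eventually (lt_mem_nhds hb)).and (Filter.eventually_ge_atTop (N + 1))).exists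
    refine ⟨3 * ((3 ^ k) ^ 2 - 1), ?_, ?_⟩
    · have h1 : k < 3 ^ k := Nat.lt_pow_self (by norm_num)
      have h2 : 3 ^ k ≤ (3 ^ k) ^ 2 := Nat.le_self_pow (by norm_num) _
      show N ≤ 3 * ((3 ^ k) ^ 2 - 1)
      omega
    · have h3 := ratio_ge k (by omega)
      rw [one_div_pow] at hk1
      exact hk1.le.trans h3

end Pool.Agent.Results.MP_364e44_co.LimsupT4
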