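import Mathlib
import Pool.Agent.MP_364e44_co.SProps
import Pool.Agent.MP_364e44_co.Lower

/-!
The ratio `tau n 5 / √n` has no limit: its lower limit is at most `1 / √10` (prime `n`) and its
upper limit is at least `1 / √6` (`n = 6 (9 ^ k - 1)`).
-/

open Finset Filter Topology

namespace Pool.Agent.Results.MP_364e44_co.NoLimitT5

open Pool.Agent.MP_364e44_co

lemma tau_sq_le_self (n : ℕ) (hn : 0 < n) : (tau n 5 : ℝ) ^ 2 ≤ n := by
  have hne : NeZero n := ⟨hn.ne'⟩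
  obtain ⟨A, hA, hcard⟩ := exists_tau n 5
  have h := card_sq_le (S := symm A) (fun x hx => neg_mem_symm hx)
    (fun x hx => cv_le_two hA (by norm_num) x hx)
  rw [card_symm hA (by norm_num), hcard] at h
  push_cast at h
  have h2 : (tau n 5 : ℝ) ≤ (tau n 5 : ℝ) ^ 2 := by
    have : tau n 5 ≤ (tau n 5) ^ 2 := Nat.le_self_pow (by norm_num) _
    exact_mod_cast this
  nlinarith

lemma ratio_nonneg (n : ℕ) : (0 : ℝ) ≤ (tau n 5 : ℝ) / √n := by positivity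

lemma ratio_le_one (n : ℕ) : (tau n 5 : ℝ) / √n ≤ 1 := by
  rcases Nat.eq_zero_or_pos n with h | h
  · simp [h]
  · have h0 : (0 : ℝ) < n := by exact_mod_cast h
    rw [div_le_one (Real.sqrt_pos.mpr h0)]
    exact Real.le_sqrt_of_sq_le (tau_sq_le_self n h)

lemma frequently_large : ∃ᶠ n : ℕ in atTop, 1 / √6 ≤ (tau n 5 : ℝ) / √n := by
  rw [Filter.frequently_atTop]
  intro N
  refine ⟨6 * ((3 ^ (N + 1)) ^ 2 - 1), ?_, ?_⟩
  · have h1 : N + 1 < 3 ^ (N + 1) := Nat.lt_pow_self (by norm_num)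
    have h2 : 3 ^ (N + 1) ≤ (3 ^ (N + 1)) ^ 2 := Nat.le_self_pow (by norm_num) _
    show N ≤ 6 * ((3 ^ (N + 1)) ^ 2 - 1)
    omega
  · have h1 := tau_five_ge (N + 1) (by omega)
    have h1' : ((3 : ℝ) ^ (N + 1)) ≤ (tau (6 * ((3 ^ (N + 1)) ^ 2 - 1)) 5 : ℝ) := by exact_mod_cast h1
    have h2 : (((6 * ((3 ^ (N + 1)) ^ 2 - 1) : ℕ)) : ℝ) ≤ 6 * ((3 : ℝ) ^ (N + 1)) ^ 2 := by
      have : 6 * ((3 ^ (N + 1)) ^ 2 - 1) ≤ 6 * (3 ^ (N + 1)) ^ 2 := by omega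
      exact_mod_cast this
    have hpos : (0 : ℝ) < (((6 * ((3 ^ (N + 1)) ^ 2 - 1) : ℕ)) : ℝ) := by
      have hne := neZero_aux (N + 1) (by omega)
      have : 0 < 6 * ((3 ^ (N + 1)) ^ 2 - 1) := Nat.pos_of_ne_zero (Nat.mul_ne_zero (by norm_num) hne.out)
      exact_mod_cast this
    rw [div_le_div_iff₀ (by positivity) (Real.sqrt_pos.mpr hpos), one_mul]
    calc √((6 * ((3 ^ (N + 1)) ^ 2 - 1) : ℕ) : ℝ) ≤ √(6 * ((3 : ℝ) ^ (N + 1)) ^ 2) := Real.sqrt_le_sqrt h2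
      _ = √6 * 3 ^ (N + 1) := by
          rw [Real.sqrt_mul (by norm_num), Real.sqrt_sq (by positivity)]
      _ ≤ √6 * (tau (6 * ((3 ^ (N + 1)) ^ 2 - 1)) 5 : ℝ) :=
          mul_le_mul_of_nonneg_left h1' (Real.sqrt_nonneg _)
      _ = _ := mul_comm _ _

lemma frequently_small (η : ℝ) (hη : 0 < η) (hη1 : η ≤ 1) :
    ∃ᶠ n : ℕ in atTop, (tau n 5 : ℝ) / √n ≤ √(1 / 10 + η) := by
  rw [Filter.frequently_atTop]
  intro N
  obtain ⟨p0, hp0⟩ := tau_sq_le η hη hη1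
  obtain ⟨p, hp, hprime⟩ := Nat.exists_infinite_primes (N + p0)
  refine ⟨p, by omega, ?_⟩
  have h := hp0 p (by omega) hprime
  have hpos : (0 : ℝ) < p := by exact_mod_cast hprime.pos
  rw [div_le_iff₀ (Real.sqrt_pos.mpr hpos), ← Real.sqrt_mul (by positivity)]
  exact Real.le_sqrt_of_sq_le h

lemma liminf_le : liminf (fun n : ℕ => (tau n 5 : ℝ) / √n) atTop ≤ 1 / √10 := by
  apply le_of_forall_gt_imp_ge_of_dense
  intro b hb
  have hb0 : 0 < b := lt_trans (by positivity) hb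
  have hb2 : 1 / 10 < b ^ 2 := by
    have h1 : (1 / √10) ^ 2 < b ^ 2 := pow_lt_pow_left₀ hb (by positivity) (by norm_num)
    rw [div_pow, Real.sq_sqrt (by norm_num)] at h1
    simpa using h1
  obtain ⟨η, hη, hη1, hη2⟩ : ∃ η : ℝ, 0 < η ∧ η ≤ 1 ∧ 1 / 10 + η ≤ b ^ 2 :=
    ⟨min 1 (b ^ 2 - 1 / 10), lt_min (by norm_num) (by linarith), min_le_left _ _, by
      have := min_le_right 1 (b ^ 2 - 1 / 10); linarith⟩
  have h1 : √(1 / 10 + η) ≤ b := by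
    rw [← Real.sqrt_sq hb0.le]; exact Real.sqrt_le_sqrt hη2
  refine le_trans (Filter.liminf_le_of_frequently_le (frequently_small η hη hη1) ?_) h1
  exact Filter.isBoundedUnder_of ⟨0, fun n => ratio_nonneg n⟩

lemma le_limsup : 1 / √6 ≤ limsup (fun n : ℕ => (tau n 5 : ℝ) / √n) atTop := by
  refine Filter.le_limsup_of_frequently_le frequently_large ?_
  exact Filter.isBoundedUnder_of ⟨1, fun n => ratio_le_one n⟩

lemma sqrt_lt : 1 / √10 < 1 / √6 :=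
  one_div_lt_one_div_of_lt (by positivity) (Real.sqrt_lt_sqrt (by norm_num) (by norm_num))

/-- **Main theorem.** The ratio `τ_±(ℤ_n,[1,5]) / √n` satisfies `liminf ≤ 1/√10 < 1/√6 ≤ limsup`;
in particular it has no limit. -/
theorem result :
    liminf (fun n : ℕ => (tau n 5 : ℝ) / √n) atTop ≤ 1 / √10 ∧
    1 / √6 ≤ limsup (fun n : ℕ => (tau n 5 : ℝ) / √n) atTop ∧
    liminf (fun n : ℕ => (tau n 5 : ℝ) / √n) atTop < limsup (fun n : ℕ => (tau n 5 : ℝ) / √n) atTop ∧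
    ¬ ∃ L : ℝ, Tendsto (fun n : ℕ => (tau n 5 : ℝ) / √n) atTop (𝓝 L) := by
  refine ⟨liminf_le, le_limsup, lt_of_le_of_lt liminf_le (lt_of_lt_of_le sqrt_lt le_limsup), ?_⟩
  rintro ⟨L, hL⟩
  have h1 := liminf_le
  have h2 := le_limsup
  rw [hL.liminf_eq] at h1
  rw [hL.limsup_eq] at h2
  exact absurd sqrt_lt (not_lt.mpr (h2.trans h1))

end Pool.Agent.Results.MP_364e44_co.NoLimitT5
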